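import Mathlib

/-!
# The divisibility poset of the ideal class monoid determines the numerical semigroup (MP_6e7624_al)

For a numerical semigroup `S` (a submonoid of `(ℕ, +)` with finite complement) let `I0 S` be the
monoid of the ideals `E` of `S` with `min E = 0`, that is, of the sets `E ⊆ ℕ` with `0 ∈ E` and
`E + S ⊆ E`, with the addition of sets. This is the standard model of the ideal class monoid of
`S`: each class of ideals contains exactly one ideal with minimum `0`. On a commutative monoid write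
`a ≼ b` if `b = a + c` for some `c`.

We prove: if `(I0 S₁, ≼)` and `(I0 S₂, ≼)` are isomorphic, then `S₁ = S₂`.

Proof. (1) If `E ≠ ℕ` and `y` is the largest element of the complement of `E`, then
`E + (S ∪ [y, ∞)) = E ∪ {y}`. Hence the longest strictly increasing chain that starts at `E` has
exactly `|ℕ \ E|` steps, and an isomorphism preserves `|ℕ \ E|`. So for every `k` the number of
`E ∈ I0 S` with `|ℕ \ E| = k` is an invariant of the poset. (2) Let `m` be the smallest element of
the symmetric difference, say `m ∈ S₁ \ S₂`, and let `k` be the number of elements of `S₂` below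
`m`. If `E ∈ I0 S₁` has `|ℕ \ E| = k`, then the complement of `E` lies below `m` (a larger element
`z` gives the `k + 1` elements `z - s`, `s ∈ S₁`, `s ≤ m`, of the complement), so `E ∈ I0 S₂`.
On the other hand the complement of `{m - s : s ∈ S₂, s < m}` is in `I0 S₂` but not in `I0 S₁`.
So the two numbers are different.
-/

set_option autoImplicit false

open scoped Pointwise

namespace Pool.Agent.Results.MP_6e7624_al.PosetDeterminesSemigroup

/-- `a ≼ b` in a commutative monoid (written additively): `b = a + c` for some `c`. -/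
def Divides {H : Type*} [AddCommMonoid H] (a b : H) : Prop := ∃ c : H, b = a + c

/-- `E ⊆ ℕ` is an ideal of `S` with minimum `0`: `0 ∈ E` and `E + S ⊆ E`. -/
def IsIdeal0 (S : AddSubmonoid ℕ) (E : Set ℕ) : Prop :=
  0 ∈ E ∧ ∀ e ∈ E, ∀ s ∈ S, e + s ∈ E

/-- The ideals of `S` with minimum `0`, the normalised model of the ideal class monoid of `S`. -/
def I0 (S : AddSubmonoid ℕ) : Type := {E : Set ℕ // IsIdeal0 S E}

namespace I0

variable {S : AddSubmonoid ℕ}

theorem ext' {I J : I0 S} (h : I.1 = J.1) : I = J := Subtype.ext h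

theorem sub_mem (I : I0 S) {s : ℕ} (hs : s ∈ S) : s ∈ I.1 := by
  have := I.2.2 0 I.2.1 s hs
  simpa using this

/-- The sum `I + J = {i + j : i ∈ I, j ∈ J}` of two ideals. -/
instance : Add (I0 S) :=
  ⟨fun I J => ⟨I.1 + J.1, ⟨⟨0, I.2.1, 0, J.2.1, rfl⟩, by
    rintro _ ⟨i, hi, j, hj, rfl⟩ s hs
    exact ⟨i, hi, j + s, J.2.2 j hj s hs, by simp [add_assoc]⟩⟩⟩⟩

/-- The neutral element is `S` itself. -/
instance : Zero (I0 S) :=
  ⟨⟨(S : Set ℕ), ⟨S.zero_mem, fun _ he _ hs => S.add_mem he hs⟩⟩⟩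

theorem add_val (I J : I0 S) : (I + J).1 = I.1 + J.1 := rfl

theorem zero_val : (0 : I0 S).1 = (S : Set ℕ) := rfl

theorem add_zero' (I : I0 S) : I + 0 = I := by
  apply ext'
  rw [add_val, zero_val]
  ext x
  constructor
  · rintro ⟨i, hi, s, hs, rfl⟩
    exact I.2.2 i hi s hs
  · intro hx
    exact ⟨x, hx, 0, S.zero_mem, by simp⟩

theorem add_comm' (I J : I0 S) : I + J = J + I := ext' (add_comm I.1 J.1)

/-- The ideal class monoid, as the monoid of ideals with minimum `0`. -/
instance : AddCommMonoid (I0 S) where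
  add_assoc I J K := ext' (add_assoc I.1 J.1 K.1)
  zero_add I := by rw [add_comm', add_zero']
  add_zero := add_zero'
  add_comm := add_comm'
  nsmul := nsmulRec

end I0

variable {S : AddSubmonoid ℕ}

theorem divides_sub {I J : I0 S} (h : Divides I J) : I.1 ⊆ J.1 := by
  obtain ⟨K, rfl⟩ := h
  intro x hx
  exact ⟨x, hx, 0, K.2.1, by simp⟩

theorem compl_finite (hS : ((S : Set ℕ)ᶜ).Finite) (I : I0 S) : (I.1ᶜ).Finite :=
  hS.subset (Set.compl_subset_compl.mpr fun _ hs => I.sub_mem hs)

/-- Adding the largest missing element is a step in the divisibility order. -/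
theorem step (hS : ((S : Set ℕ)ᶜ).Finite) (I : I0 S) (hI : (I.1ᶜ).ncard ≠ 0) :
    ∃ J : I0 S, Divides I J ∧ I ≠ J ∧ (J.1ᶜ).ncard + 1 = (I.1ᶜ).ncard := by
  have hfin := compl_finite hS I
  have hne : (I.1ᶜ).Nonempty := Set.nonempty_of_ncard_ne_zero hI
  obtain ⟨y, hy, hmax⟩ := hfin.exists_maximal hne
  have hmax' : ∀ z ∈ I.1ᶜ, z ≤ y := by
    intro z hz
    by_contra hlt
    exact hlt (hmax hz (le_of_not_ge hlt))
  have hy0 : y ≠ 0 := by
    rintro rfl
    exact hy I.2.1
  have hK : IsIdeal0 S ((S : Set ℕ) ∪ Set.Ici y) := by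
    refine ⟨Or.inl S.zero_mem, ?_⟩
    rintro e (he | he) s hs
    · exact Or.inl (S.add_mem he hs)
    · exact Or.inr (le_trans he (Nat.le_add_right e s))
  let K : I0 S := ⟨_, hK⟩
  have hval : (I + K).1 = insert y I.1 := by
    rw [I0.add_val]
    ext x
    constructor
    · rintro ⟨i, hi, k, hk, rfl⟩
      rcases hk with hk | hk
      · exact Or.inr (I.2.2 i hi k hk)
      · by_cases hik : i + k ∈ I.1
        · exact Or.inr hik
        · left
          have h1 : i + k ≤ y := hmax' _ hik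
          have h2 : y ≤ k := hk
          show i + k = y
          omega
    · rintro (rfl | hx)
      · exact ⟨0, I.2.1, x, Or.inr (le_refl x), by simp⟩
      · exact ⟨x, hx, 0, Or.inl S.zero_mem, by simp⟩
  refine ⟨I + K, ⟨K, rfl⟩, ?_, ?_⟩
  · intro h
    apply hy
    rw [h, hval]
    exact Or.inl rfl
  · rw [hval]
    have : (insert y I.1)ᶜ = I.1ᶜ \ {y} := by
      ext x
      simp only [Set.mem_compl_iff, Set.mem_insert_iff, Set.mem_sdiff, Set.mem_singleton_iff]
      tauto
    rw [this]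
    exact Set.ncard_sdiff_singleton_add_one hy hfin

/-- There is a strictly increasing chain with `n` steps that starts at `I`. -/
def HasChain {H : Type*} [AddCommMonoid H] : ℕ → H → Prop
  | 0, _ => True
  | n + 1, a => ∃ b : H, Divides a b ∧ a ≠ b ∧ HasChain n b

theorem hasChain_iff (hS : ((S : Set ℕ)ᶜ).Finite) (n : ℕ) :
    ∀ I : I0 S, HasChain n I ↔ n ≤ (I.1ᶜ).ncard := by
  induction n with
  | zero => intro I; simp [HasChain]
  | succ n ih =>
    intro I
    constructor
    · rintro ⟨J, hIJ, hne, hJ⟩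
      have h1 := (ih J).1 hJ
      have hss : J.1ᶜ ⊂ I.1ᶜ :=
        ⟨Set.compl_subset_compl.2 (divides_sub hIJ), fun h => hne (I0.ext' (Set.Subset.antisymm
          (divides_sub hIJ) (Set.compl_subset_compl.1 h)))⟩
      have h2 := Set.ncard_lt_ncard hss (compl_finite hS I)
      omega
    · intro h
      obtain ⟨J, hIJ, hne, hJ⟩ := step hS I (by omega)
      exact ⟨J, hIJ, hne, (ih J).2 (by omega)⟩

theorem hasChain_map {H₁ H₂ : Type*} [AddCommMonoid H₁] [AddCommMonoid H₂] (e : H₁ ≃ H₂)
    (he : ∀ a b, Divides a b ↔ Divides (e a) (e b)) (n : ℕ) :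
    ∀ a, HasChain n a ↔ HasChain n (e a) := by
  induction n with
  | zero => intro a; simp [HasChain]
  | succ n ih =>
    intro a
    constructor
    · rintro ⟨b, h1, h2, h3⟩
      exact ⟨e b, (he a b).1 h1, fun h => h2 (e.injective h), (ih b).1 h3⟩
    · rintro ⟨b, h1, h2, h3⟩
      refine ⟨e.symm b, (he _ _).2 (by simpa using h1), ?_, (ih _).2 (by simpa using h3)⟩
      rintro rfl
      exact h2 (by simp)

/-- The ideals with minimum `0` whose complement has `k` elements. -/
def Level (S : AddSubmonoid ℕ) (k : ℕ) : Set (Set ℕ) := {E | IsIdeal0 S E ∧ (Eᶜ).ncard = k}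

theorem level_finite (hS : ((S : Set ℕ)ᶜ).Finite) (k : ℕ) : (Level S k).Finite := by
  have h : {T : Set ℕ | T ⊆ (S : Set ℕ)ᶜ}.Finite := hS.finite_subsets
  refine (h.preimage (f := fun E : Set ℕ => Eᶜ) compl_injective.injOn).subset ?_
  rintro E ⟨hE, -⟩
  show Eᶜ ⊆ (S : Set ℕ)ᶜ
  exact Set.compl_subset_compl.mpr fun _ hs => I0.sub_mem ⟨E, hE⟩ hs

theorem level_ncard_eq {S₁ S₂ : AddSubmonoid ℕ} (h₁ : ((S₁ : Set ℕ)ᶜ).Finite)
    (h₂ : ((S₂ : Set ℕ)ᶜ).Finite) (e : I0 S₁ ≃ I0 S₂)
    (he : ∀ I J, Divides I J ↔ Divides (e I) (e J)) (k : ℕ) :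
    (Level S₁ k).ncard = (Level S₂ k).ncard := by
  have hco : ∀ I : I0 S₁, (I.1ᶜ).ncard = ((e I).1ᶜ).ncard := by
    intro I
    apply le_antisymm
    · exact (hasChain_iff h₂ _ _).1 ((hasChain_map e he _ I).1 ((hasChain_iff h₁ _ _).2 le_rfl))
    · exact (hasChain_iff h₁ _ _).1 ((hasChain_map e he _ I).2 ((hasChain_iff h₂ _ _).2 le_rfl))
  refine Set.ncard_congr (fun E hE => (e ⟨E, hE.1⟩).1) ?_ ?_ ?_
  · intro E hE
    exact ⟨(e ⟨E, hE.1⟩).2, by rw [← hco]; exact hE.2⟩
  · intro E F hE hF h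
    have := e.injective (I0.ext' h)
    exact congrArg Subtype.val this
  · intro F hF
    have hs : e (e.symm ⟨F, hF.1⟩) = ⟨F, hF.1⟩ := e.apply_symm_apply _
    refine ⟨(e.symm ⟨F, hF.1⟩).1, ⟨(e.symm ⟨F, hF.1⟩).2, ?_⟩, ?_⟩
    · rw [hco, hs]
      exact hF.2
    · show (e (e.symm ⟨F, hF.1⟩)).1 = F
      rw [hs]

/-- If the level numbers agree and `S₁`, `S₂` agree below `m`, then `m ∈ S₁` implies `m ∈ S₂`. -/
theorem key {S₁ S₂ : AddSubmonoid ℕ} (h₂ : ((S₂ : Set ℕ)ᶜ).Finite)
    (hl : ∀ k, (Level S₁ k).ncard = (Level S₂ k).ncard) (h₁ : ((S₁ : Set ℕ)ᶜ).Finite)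
    (m : ℕ) (hm : ∀ j < m, (j ∈ S₁ ↔ j ∈ S₂)) (hm1 : m ∈ S₁) : m ∈ S₂ := by
  by_contra hm2
  have hm0 : 0 < m := by
    rcases Nat.eq_zero_or_pos m with rfl | h
    · exact absurd S₂.zero_mem hm2
    · exact h
  let A : Set ℕ := {s | s ∈ S₂ ∧ s < m}
  have hA : A.Finite := (Set.finite_Iio m).subset fun s hs => hs.2
  have hsub : Level S₁ A.ncard ⊆ Level S₂ A.ncard := by
    rintro E ⟨hE, hk⟩
    have hfin : (Eᶜ).Finite := compl_finite h₁ ⟨E, hE⟩
    have hlt : ∀ z ∉ E, z < m := by
      intro z hz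
      by_contra hzm
      have hzm' : m < z := by
        rcases Nat.lt_or_ge m z with h | h
        · exact h
        · exfalso
          have : z = m := by omega
          subst this
          exact hz (I0.sub_mem ⟨E, hE⟩ hm1)
      have hinj : Set.InjOn (fun s => z - s) (insert m A) := by
        intro s hs t ht hst
        have h1 : s ≤ m := by
          rcases hs with rfl | hs
          · exact le_rfl
          · exact hs.2.le
        have h2 : t ≤ m := by
          rcases ht with rfl | ht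
          · exact le_rfl
          · exact ht.2.le
        have h3 : z - s = z - t := hst
        omega
      have himg : (fun s => z - s) '' (insert m A) ⊆ Eᶜ := by
        rintro _ ⟨s, hs, rfl⟩ hzs
        have h1 : s ≤ m ∧ s ∈ S₁ := by
          rcases hs with rfl | hs
          · exact ⟨le_rfl, hm1⟩
          · exact ⟨hs.2.le, (hm s hs.2).2 hs.1⟩
        have h4 := hE.2 _ hzs s h1.2
        have h5 : z - s + s = z := by omega
        apply hz
        have h6 : (fun s => z - s) s + s = z := h5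
        rw [h6] at h4
        exact h4
      have hcard := Set.ncard_le_ncard himg hfin
      rw [hinj.ncard_image, Set.ncard_insert_of_notMem (fun h => hm2 h.1) hA, hk]
        at hcard
      omega
    refine ⟨⟨hE.1, ?_⟩, hk⟩
    intro e he s hs
    by_contra hes
    have h1 := hlt _ hes
    exact hes (hE.2 e he s ((hm s (by omega)).2 hs))
  let E₀ : Set ℕ := ((fun s => m - s) '' A)ᶜ
  have hE₀ : IsIdeal0 S₂ E₀ := by
    constructor
    · rintro ⟨s, hs, h⟩
      have h1 : m - s = 0 := h
      have h2 := hs.2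
      omega
    · rintro e he s hs ⟨t, ht, h⟩
      have h1 : m - t = e + s := h
      have h2 := ht.2
      apply he
      have hst : s + t ∈ S₂ := S₂.add_mem hs ht.1
      have hle : s + t ≤ m := by omega
      have hne : s + t ≠ m := by
        intro h3
        rw [h3] at hst
        exact hm2 hst
      refine ⟨s + t, ⟨hst, by omega⟩, ?_⟩
      show m - (s + t) = e
      omega
  have hcard₀ : (E₀ᶜ).ncard = A.ncard := by
    rw [compl_compl]
    apply Set.InjOn.ncard_image
    intro s hs t ht hst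
    have h1 := hs.2
    have h2 := ht.2
    have h3 : m - s = m - t := hst
    omega
  have hnot : E₀ ∉ Level S₁ A.ncard := by
    rintro ⟨h, -⟩
    have h1 : m ∈ E₀ := I0.sub_mem ⟨E₀, h⟩ hm1
    exact h1 ⟨0, ⟨S₂.zero_mem, hm0⟩, by simp⟩
  have hss : Level S₁ A.ncard ⊂ Level S₂ A.ncard :=
    ⟨hsub, fun h => hnot (h ⟨hE₀, hcard₀⟩)⟩
  have := Set.ncard_lt_ncard hss (level_finite h₂ _)
  rw [hl] at this
  exact lt_irrefl _ this

/-- If the ideal class monoids of two numerical semigroups, ordered by divisibility, are isomorphic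
as posets, then the numerical semigroups are equal. -/
theorem result (S₁ S₂ : AddSubmonoid ℕ) (h₁ : ((S₁ : Set ℕ)ᶜ).Finite)
    (h₂ : ((S₂ : Set ℕ)ᶜ).Finite) (e : I0 S₁ ≃ I0 S₂)
    (he : ∀ I J : I0 S₁, Divides I J ↔ Divides (e I) (e J)) : S₁ = S₂ := by
  have hl := level_ncard_eq h₁ h₂ e he
  apply SetLike.ext
  intro m
  induction m using Nat.strong_induction_on with
  | _ m ih =>
    exact ⟨key h₂ hl h₁ m ih, key h₁ (fun k => (hl k).symm) h₂ m fun j hj => (ih j hj).symm⟩

end Pool.Agent.Results.MP_6e7624_al.PosetDeterminesSemigroup
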